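import Pool.Agent.W997.CS.Stm
import Pool.Agent.W216.CFPDA

/-!
# The machine evaluates the unrolled De Bruijn graph
-/

set_option autoImplicit false

namespace Pool.Agent.W21.CSPDA

open Pool.Agent.W997.DB (Word Var Input value shift rootBit)
open Pool.Agent.W997.TS (bit)
open Pool.Agent.W997.CF (TL ev digits tree arg mach St Sy)
open Pool.Agent.W997.CS
open Pool.Agent.W216.CFPDA (run_app run_dl run_tree run_flatMap map_digits map_flatMap' enc addr
  addr_length arg_addr dl)

theorem run_tm {D ρ h : ℕ} (L : ℕ) (x : Input D ρ h (2 ^ L)) :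
    ∀ (j : ℕ) (hj : j ≤ h) (g : Word D ρ) (i : Fin D) (s : List Bool),
      mach.run (St.run, s.map Sy.bit) ((tmpl L j hj g i).map (ev x)) =
        some (St.run, (enc L (value x j hj g i).val ++ s).map Sy.bit) := by
  intro j
  induction j with
  | zero =>
    intro hj g i s
    rw [tmpl, value, map_digits, run_dl, List.reverse_reverse]
  | succ j ih =>
    intro hj g i s
    rw [tmpl, value, List.map_append, map_flatMap']
    have hch := run_flatMap
      (fun t : Fin D => (tmpl (ρ := ρ) (h := h) L j (Nat.le_of_succ_le hj) (shift g i) t).map (ev x))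
      (fun t : Fin D => enc L (value x j (Nat.le_of_succ_le hj) (shift g i) t).val)
      (fun t r => ih (Nat.le_of_succ_le hj) (shift g i) t r)
      (List.finRange D) s
    rw [run_app _ _ _ _ _ hch]
    let c : Fin D → ℕ := fun t => (value x j (Nat.le_of_succ_le hj) (shift g i) t).val
    have hc : ∀ t, c t < 2 ^ L := fun t => (value x j (Nat.le_of_succ_le hj) (shift g i) t).2
    let G : List Bool → List Bool := fun a =>
      (enc L (x (Sum.inl (⟨j, hj⟩, g, i, fun s => ⟨arg D L a s, arg_lt D L a s⟩))).val).reverse
    have hG : ∀ a, (entry L (⟨j, hj⟩ : Fin h) g i a).map (ev x) = (G a).map dl := by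
      intro a
      unfold entry
      exact map_digits x L _
    have h2 := run_tree x (D * L) (entry L (⟨j, hj⟩ : Fin h) g i) G hG (addr D L c) s
      (addr_length D L c)
    have h3 : (List.finRange D).reverse.flatMap
        (fun t : Fin D => enc L (value x j (Nat.le_of_succ_le hj) (shift g i) t).val) =
        addr D L c := rfl
    rw [h3, h2]
    have h5 : (fun t => (⟨arg D L (addr D L c) t, arg_lt D L _ t⟩ : Fin (2 ^ L))) =
        fun t => value x j (Nat.le_of_succ_le hj) (shift g i) t := by
      funext t
      apply Fin.ext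
      exact arg_addr D L c hc t
    have h6 : (G (addr D L c)).reverse = enc L (x (Sum.inl (⟨j, hj⟩, g, i,
        fun t => value x j (Nat.le_of_succ_le hj) (shift g i) t))).val := by
      simp only [G]
      rw [List.reverse_reverse, h5]
    rw [h6]

theorem run_zeros (j : ℕ) (s : List Bool) :
    mach.run (St.run, s.map Sy.bit) (List.replicate j (0 : Fin 6)) =
      some (St.run, ((List.replicate j false).reverse ++ s).map Sy.bit) := by
  have : List.replicate j (0 : Fin 6) = (List.replicate j false).map dl := by simp [dl]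
  rw [this]
  exact run_dl _ s

theorem run_pre {D ρ h : ℕ} (L : ℕ) (x : Input D ρ h (2 ^ L)) (s : List Bool) :
    ∃ l : List Bool, mach.run (St.run, s.map Sy.bit) ((pre D ρ h L).map (ev x)) =
      some (St.run, (l ++ s).map Sy.bit) := by
  refine ⟨(((Finset.univ : Finset (Var D ρ h (2 ^ L))).toList.flatMap
    (fun u => (enc L (x u).val).reverse))).reverse, ?_⟩
  have h1 : (pre D ρ h L).map (ev x) = ((Finset.univ : Finset (Var D ρ h (2 ^ L))).toList.flatMap
    (fun u => (enc L (x u).val).reverse)).map dl := by
    unfold pre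
    rw [map_flatMap', map_flatMap']
    congr 1
    funext u
    exact map_digits x L u
  rw [h1]
  exact run_dl _ s

theorem main : S_PDA := by
  intro D ρ h L j g i hL x
  have h0 := run_zeros j []
  rw [List.append_nil] at h0
  obtain ⟨l, hl⟩ := run_pre L x (List.replicate j false).reverse
  have h2 := run_tm L x h le_rfl g i (l ++ (List.replicate j false).reverse)
  obtain ⟨s', hs'⟩ : ∃ s', s' = l ++ (List.replicate j false).reverse := ⟨_, rfl⟩
  rw [← hs'] at h2 hl
  have h1 : (wd h L g i).map (ev x) =
      (pre D ρ h L).map (ev x) ++ ((tmpl L h le_rfl g i).map (ev x) ++ [5]) := by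
    unfold wd
    rw [List.map_append, List.map_append]
    rfl
  have h3 : mach.run (mach.start, []) (List.replicate j (0 : Fin 6) ++ (wd h L g i).map (ev x)) =
      mach.run (St.run, (enc L (value x h le_rfl g i).val ++ s').map Sy.bit) [5] := by
    rw [h1]
    have h0' : mach.run (mach.start, []) (List.replicate j (0 : Fin 6)) =
      some (St.run, ((List.replicate j false).reverse).map Sy.bit) := h0
    rw [run_app _ _ _ _ _ h0', run_app _ _ _ _ _ hl, run_app _ _ _ _ _ h2]
  have h4 : ∃ r : List Bool, enc L (value x h le_rfl g i).val =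
      (value x h le_rfl g i).val.testBit 0 :: r := by
    obtain ⟨L, rfl⟩ : ∃ L', L = L' + 1 := ⟨L - 1, by omega⟩
    refine ⟨(List.range L).map (fun e => (value x h le_rfl g i).val.testBit (e + 1)), ?_⟩
    unfold enc
    rw [List.range_succ_eq_map, List.map_cons, List.map_map]
    rfl
  obtain ⟨r, hr⟩ := h4
  rw [hr, List.cons_append] at h3
  obtain ⟨r', hr'⟩ : ∃ r', r' = r ++ s' := ⟨_, rfl⟩
  rw [← hr'] at h3
  show (∃ c, mach.run (mach.start, []) (List.replicate j (0 : Fin 6) ++
    (wd h L g i).map (ev x)) = some c ∧ c.1 ∈ mach.final) ↔ _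
  rw [h3, Nat.testBit_zero]
  unfold rootBit bit
  rcases Nat.mod_two_eq_zero_or_one (value x h le_rfl g i).val with h5 | h5
  · rw [h5]
    simp only [decide_true, iff_true]
    refine ⟨(St.yes, r'.map Sy.bit), rfl, rfl⟩
  · rw [h5]
    have : ¬ ∃ c : St × List Sy, mach.run (St.run, List.map Sy.bit (decide (1 = 1) :: r')) [5] =
        some c ∧ c.1 ∈ mach.final := by
      rintro ⟨c, hc, hc'⟩
      have h6 : mach.run (St.run, List.map Sy.bit (decide (1 = 1) :: r')) [5] =
        some (St.no, r'.map Sy.bit) := rfl
      rw [h6] at hc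
      obtain rfl := Option.some.inj hc
      exact absurd hc' (by rintro ⟨⟩)
    exact iff_of_false this (by decide)

end Pool.Agent.W21.CSPDA
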