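import Pool.Agent.W428.MOT.Stm

/-!
# Project MT, part SUB: affine substitution in one coordinate
-/

set_option autoImplicit false

namespace Pool.Agent.W21.MTSub

open Pool.Agent.W428.MOT

theorem main : S_Sub := by
  intro K _ R _ M ι _ _ S T i a b hS hT ha hb ha' hb' haS haT hST
  have e1 : ∀ z : Pt K ι, a z ≠ 0 →
      Function.update (Function.update z i (a z * z i + b z)) i
        ((a z * z i + b z - b z) / a z) = z := by
    intro z hz
    rw [Function.update_idem, add_sub_cancel_right, mul_div_cancel_left₀ _ hz,
      Function.update_eq_self]
  have e2 : ∀ w : Pt K ι, a w ≠ 0 →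
      Function.update (Function.update w i ((w i - b w) / a w)) i
        (a w * ((w i - b w) / a w) + b w) = w := by
    intro w hw
    rw [Function.update_idem, mul_div_cancel₀ _ hw, sub_add_cancel, Function.update_eq_self]
  refine M.iso S T hS hT (fun z => Function.update z i (a z * z i + b z))
    (fun w => Function.update w i ((w i - b w) / a w)) ?_ ?_ ?_ ?_ ?_ ?_
  · intro j
    rcases eq_or_ne j i with rfl | hj
    · refine IsPF.isRF ?_ S
      simp only [Function.update_self]
      exact (ha.mul (IsPF.coord _)).add hb
    · refine IsPF.isRF ?_ S
      simp only [Function.update_of_ne hj]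
      exact IsPF.coord _
  · intro j
    rcases eq_or_ne j i with rfl | hj
    · have h1 : IsRF T (fun z : Pt K ι => (z j - b z) / a z) :=
        (((IsPF.coord j).sub hb).isRF T).div (ha.isRF T) haT
      change IsRF T _
      simp only [Function.update_self]
      exact h1
    · refine IsPF.isRF ?_ T
      simp only [Function.update_of_ne hj]
      exact IsPF.coord _
  · intro z hz
    exact (hST z (haS z hz)).1 hz
  · intro w hw
    have hw0 := haT w hw
    change Function.update w i ((w i - b w) / a w) ∈ S
    rw [hST _ (by rw [ha']; exact hw0), ha', hb', Function.update_self, e2 w hw0]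
    exact hw
  · intro z hz
    have hz0 := haS z hz
    simp only [ha', hb', Function.update_self]
    exact e1 z hz0
  · intro w hw
    have hw0 := haT w hw
    simp only [ha', hb', Function.update_self]
    exact e2 w hw0

end Pool.Agent.W21.MTSub
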