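import Pool.Agent.W527.PC.Stm

/-!
# The condition on the algebraic subgroups
-/

namespace Pool.Agent.W21.PCRANK

open NumberField Pool.Agent.W527.CL Pool.Agent.W527.PC

theorem zpow_sum' {A ι : Type*} [CommGroup A] (a : A) (s : Finset ι) (f : ι → ℤ) :
    a ^ (∑ i ∈ s, f i) = ∏ i ∈ s, a ^ f i := by
  classical
  induction s using Finset.induction_on with
  | empty => simp
  | insert i s hi ih => rw [Finset.sum_insert hi, Finset.prod_insert hi, zpow_add, ih]

theorem hat_castSucc (X : Matrix (Fin 4) (Fin 5) ℤ) (i : Fin 4) (j : Fin 5) :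
    hat X i.castSucc j = X i j := by
  simp [hat]

theorem hat_last (X : Matrix (Fin 4) (Fin 5) ℤ) (j : Fin 5) :
    hat X (Fin.last 4) j = -∑ i, X i j := by
  unfold hat
  rw [Fin.lastCases_last]

theorem sum_hat (X : Matrix (Fin 4) (Fin 5) ℤ) (j : Fin 5) : ∑ k, hat X k j = 0 := by
  rw [Fin.sum_univ_castSucc]
  simp only [hat_castSucc, hat_last]
  ring

section

variable {K : Type} [Field K] [NumberField K] (D : FieldData K)

theorem G_eq (σ : Equiv.Perm (Fin 5)) (X : Matrix (Fin 4) (Fin 5) ℤ) :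
    G D σ X = ∏ k : Fin 5, ∏ j : Fin 5, bu D k (σ j) ^ hat X k j := by
  rw [Fin.prod_univ_castSucc]
  simp only [hat_castSucc, hat_last, zpow_neg, zpow_sum', Finset.prod_inv_distrib]
  unfold G g
  simp only [div_zpow, Finset.prod_div_distrib]
  rw [div_eq_mul_inv]
  congr 2
  exact Finset.prod_comm

theorem b_inj : Function.Injective D.b := by
  intro k k' h
  obtain ⟨φ, hφ⟩ := D.surj 1
  apply D.inj
  have h1 := hφ k
  have h2 := hφ k'
  simp only [Equiv.Perm.one_apply] at h1 h2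
  rw [← h1, ← h2, h]

variable {p : ℕ} [Fact p.Prime] (P : PData D p)

theorem r_inj : Function.Injective P.r := by
  intro k k' h
  obtain ⟨φ, hφ⟩ := P.surj 1
  apply b_inj D
  apply φ.injective
  have h1 := hφ k
  have h2 := hφ k'
  simp only [Equiv.Perm.one_apply] at h1 h2
  rw [h1, h2, h]

noncomputable def pi (φ : K →+* ℚ_[p]) : Equiv.Perm (Fin 5) := (P.emb φ).choose

theorem pi_spec (φ : K →+* ℚ_[p]) (k : Fin 5) :
    φ (D.b k) = ((P.r (pi D P φ k) : ℤ_[p]) : ℚ_[p]) := (P.emb φ).choose_spec k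

theorem pi_surj : Function.Surjective (pi D P) := by
  intro τ
  obtain ⟨φ, hφ⟩ := P.surj τ
  refine ⟨φ, ?_⟩
  ext1 k
  apply r_inj D P
  have h1 := pi_spec D P φ k
  have h2 := hφ k
  exact PadicInt.ext (h1.symm.trans h2)

theorem map_bu (φ φ1 : K →+* ℚ_[p]) (h1 : pi D P φ1 = 1) (k j : Fin 5) :
    Units.map (φ : K →* ℚ_[p]) (bu D k j) =
      Units.map (φ1 : K →* ℚ_[p]) (bu D (pi D P φ k) j) := by
  apply Units.ext
  have e1 := pi_spec D P φ k
  have e2 := pi_spec D P φ1 (pi D P φ k)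
  rw [h1, Equiv.Perm.one_apply] at e2
  show φ (D.b k + (n5 j : K)) = φ1 (D.b (pi D P φ k) + (n5 j : K))
  rw [map_add, map_add, map_intCast, map_intCast, e1, e2]

/-- The group of matrices. -/
noncomputable def SS (σ : Equiv.Perm (Fin 5)) (N : AddSubgroup ((K →+* ℚ_[p]) → ℤ)) :
    AddSubgroup (Matrix (Fin 4) (Fin 5) ℤ) where
  carrier := {X | X ∈ USym ∧ G D σ X ∈ (pointsp K p N).comap (embp K p)}
  zero_mem' := ⟨zero_mem _, by rw [G_zero]; exact one_mem _⟩
  add_mem' := by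
    rintro X Y ⟨hX, hX'⟩ ⟨hY, hY'⟩
    exact ⟨add_mem hX hY, by rw [G_add]; exact mul_mem hX' hY'⟩
  neg_mem' := by
    rintro X ⟨hX, hX'⟩
    exact ⟨neg_mem hX, by rw [G_neg]; exact inv_mem hX'⟩

theorem key (hG : S_GINJ) (σ : Equiv.Perm (Fin 5)) (N : AddSubgroup ((K →+* ℚ_[p]) → ℤ))
    (χ : (K →+* ℚ_[p]) → ℤ) (hχ : χ ∈ N) (X : Matrix (Fin 4) (Fin 5) ℤ) (hX : X ∈ SS D σ N)
    (k j : Fin 5) : ∑ φ, χ φ * hat X ((pi D P φ).symm k) j = 0 := by
  obtain ⟨φ1, h1⟩ := pi_surj D P 1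
  obtain ⟨E, hE⟩ : ∃ E : Fin 5 → Fin 5 → ℤ,
    E = fun k j => ∑ φ, χ φ * hat X ((pi D P φ).symm k) j := ⟨_, rfl⟩
  have hsum : ∀ j, ∑ k, E k j = 0 := by
    intro j
    simp only [hE]
    rw [Finset.sum_comm]
    apply Finset.sum_eq_zero
    intro φ _
    rw [← Finset.mul_sum, Equiv.sum_comp (pi D P φ).symm (fun k => hat X k j), sum_hat, mul_zero]
  have hpt : ∏ φ, (embp K p (G D σ X) φ) ^ χ φ = 1 := hX.2 χ hχ
  have h2 : ∀ φ, embp K p (G D σ X) φ =
      ∏ k, ∏ j, Units.map (φ1 : K →* ℚ_[p]) (bu D k (σ j)) ^ hat X ((pi D P φ).symm k) j := by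
    intro φ
    show Units.map (φ : K →* ℚ_[p]) (G D σ X) = _
    rw [G_eq, map_prod]
    rw [← Equiv.prod_comp (pi D P φ) (fun k => ∏ j, Units.map (φ1 : K →* ℚ_[p])
      (bu D k (σ j)) ^ hat X ((pi D P φ).symm k) j)]
    apply Finset.prod_congr rfl
    intro k _
    rw [map_prod]
    apply Finset.prod_congr rfl
    intro j _
    rw [map_zpow, map_bu D P φ φ1 h1, Equiv.symm_apply_apply]
  have h3 : Units.map (φ1 : K →* ℚ_[p]) (∏ k, ∏ j, bu D k (σ j) ^ E k j) = 1 := by
    rw [← hpt]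
    have e1 : ∏ φ, (embp K p (G D σ X) φ) ^ χ φ = ∏ φ, ∏ k, ∏ j,
        Units.map (φ1 : K →* ℚ_[p]) (bu D k (σ j)) ^ (χ φ * hat X ((pi D P φ).symm k) j) := by
      apply Finset.prod_congr rfl
      intro φ _
      rw [h2, ← Finset.prod_zpow]
      apply Finset.prod_congr rfl
      intro k _
      rw [← Finset.prod_zpow]
      apply Finset.prod_congr rfl
      intro j _
      rw [← zpow_mul, mul_comm]
    have e2 : ∏ φ, ∏ k, ∏ j,
        Units.map (φ1 : K →* ℚ_[p]) (bu D k (σ j)) ^ (χ φ * hat X ((pi D P φ).symm k) j) =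
        ∏ k, ∏ j, ∏ φ,
        Units.map (φ1 : K →* ℚ_[p]) (bu D k (σ j)) ^ (χ φ * hat X ((pi D P φ).symm k) j) := by
      rw [Finset.prod_comm]
      apply Finset.prod_congr rfl
      intro k _
      rw [Finset.prod_comm]
    rw [e1, e2, map_prod]
    apply Finset.prod_congr rfl
    intro k _
    rw [map_prod]
    apply Finset.prod_congr rfl
    intro j _
    rw [hE, map_zpow, zpow_sum']
  have h4 : ∏ k, ∏ j, bu D k (σ j) ^ E k j = 1 := by
    apply Units.map_injective (f := (φ1 : K →* ℚ_[p])) φ1.injective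
    rw [h3, map_one]
  obtain ⟨E', hE'⟩ : ∃ E' : Matrix (Fin 4) (Fin 5) ℤ, E' = fun i j => E i.castSucc j := ⟨_, rfl⟩
  have h5 : ∀ k j, hat E' k j = E k j := by
    intro k j
    refine Fin.lastCases ?_ (fun i => ?_) k
    · rw [hat_last, hE']
      have := hsum j
      rw [Fin.sum_univ_castSucc] at this
      linarith
    · rw [hat_castSucc, hE']
  have h6 : G D σ E' = 1 := by
    rw [G_eq, ← h4]
    simp only [h5]
  have h7 := hG K D σ E' h6
  have h8 : E k j = 0 := by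
    rw [← h5, h7]
    refine Fin.lastCases ?_ (fun i => ?_) k
    · rw [hat_last]; simp
    · rw [hat_castSucc]; rfl
  rw [hE] at h8
  exact h8

theorem G_injective (hG : S_GINJ) (σ : Equiv.Perm (Fin 5)) {X Y : Matrix (Fin 4) (Fin 5) ℤ}
    (h : G D σ X = G D σ Y) : X = Y := by
  have : G D σ (X + -Y) = 1 := by rw [G_add, G_neg, h, mul_inv_cancel]
  have := hG K D σ _ this
  rwa [add_neg_eq_zero] at this

theorem rk_eq (hG : S_GINJ) (σ : Equiv.Perm (Fin 5)) (N : AddSubgroup ((K →+* ℚ_[p]) → ℤ)) :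
    rk K (LL D σ ⊓ (pointsp K p N).comap (embp K p)) = Module.finrank ℤ (SS D σ N) := by
  unfold rk
  let f : SS D σ N →+ Additive (LL D σ ⊓ (pointsp K p N).comap (embp K p) : Subgroup Kˣ) :=
    { toFun := fun X => Additive.ofMul ⟨G D σ X.1, ⟨⟨X.1, X.2.1, rfl⟩, X.2.2⟩⟩
      map_zero' := by
        apply Additive.toMul.injective
        apply Subtype.ext
        exact G_zero D σ
      map_add' := by
        intro X Y
        apply Additive.toMul.injective
        apply Subtype.ext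
        exact G_add D σ X.1 Y.1 }
  have hf : Function.Bijective f := by
    constructor
    · intro X Y h
      apply Subtype.ext
      apply G_injective D hG σ
      exact congrArg (fun z => (z.toMul).1) h
    · intro y
      obtain ⟨⟨X, hX, hx⟩, h2⟩ := y.toMul.2
      refine ⟨⟨X, hX, ?_⟩, ?_⟩
      · rw [← hx]; exact h2
      · apply Additive.toMul.injective
        apply Subtype.ext
        exact hx.symm
  exact (LinearEquiv.finrank_eq (AddEquiv.ofBijective f hf).toIntLinearEquiv).symm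

end

theorem t_RANK (hG : S_GINJ) (hL : S_LIN) : S_RANK := by
  intro K _ _ D p _ P σ N
  rw [rk_eq D hG σ N, Nat.card_eq_fintype_card]
  exact hL (K →+* ℚ_[p]) (pi D P) (pi_surj D P) (SS D σ N) N (fun X hX => hX.1)
    (fun χ hχ X hX k j => key D P hG σ N χ hχ X hX k j)

end Pool.Agent.W21.PCRANK
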